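import Pool.Agent.Q195.ZG.Fin
import Pool.Agent.Q195.ZG.Ones

set_option autoImplicit false

/-!
# Zero gaps of polynomials interpolating totally positive sequences are unbounded

The polynomials `x^N (x - c)^2`, with `c` a half-integer and `N` large, take totally positive values
at the nonnegative integers.
-/

open Polynomial

namespace Pool.Agent.Results.MP_c563b5_an.UnboundedGaps

/-- All minors of the lower triangular Toeplitz matrix `(a (i - j))` are nonnegative (`a m = 0` for
negative `m`). -/
def IsTP (a : ℕ → ℝ) : Prop :=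
  ∀ (k : ℕ) (rows cols : Fin k → ℕ), StrictMono rows → StrictMono cols →
    0 ≤ (Matrix.of fun p q => if cols q ≤ rows p then a (rows p - cols q) else 0).det

/-- `P` is an admissible polynomial of degree `n` with zeros `x 0 ≤ ... ≤ x (n-1)`. -/
def Admissible (n : ℕ) (P : ℝ[X]) (x : Fin n → ℝ) : Prop :=
  2 ≤ n ∧ Monotone x ∧ (∃ K : ℝ, K ≠ 0 ∧ P = C K * ∏ i, (X - C (x i))) ∧
    IsTP fun k : ℕ => P.eval (k : ℝ)

/-- There is no constant `d ≥ 1` bounding all gaps between consecutive zeros of all admissible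
polynomials. -/
theorem result : ¬ ∃ d : ℝ, 1 ≤ d ∧ ∀ (n : ℕ) (P : ℝ[X]) (x : Fin n → ℝ), Admissible n P x →
    ∀ (j : ℕ) (hj : j + 1 < n), x ⟨j + 1, hj⟩ - x ⟨j, by omega⟩ ≤ d := by
  rintro ⟨d, hd1, hd⟩
  obtain ⟨m, hm⟩ := exists_nat_ge d
  obtain ⟨N, hN1, hN⟩ := Q195.ZG.main m
  set c : ℝ := (m : ℝ) + 1 / 2 with hc
  have hc0 : 0 ≤ c := by positivity
  set x : Fin (N + 2) → ℝ := fun i => if (i : ℕ) < N then 0 else c with hx
  have hP : C (1 : ℝ) * ∏ i, (X - C (x i)) = X ^ N * (X - C c) ^ 2 := by
    rw [map_one, one_mul, Fin.prod_univ_castSucc, Fin.prod_univ_castSucc]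
    have e1 : ∀ i : Fin N, x i.castSucc.castSucc = 0 := by
      intro i
      simp [hx]
    have e2 : x (Fin.last N).castSucc = c := by simp [hx]
    have e3 : x (Fin.last (N + 1)) = c := by simp [hx]
    rw [e2, e3, Finset.prod_congr rfl fun i _ => by rw [e1 i]]
    simp only [map_zero, sub_zero, Finset.prod_const, Finset.card_univ, Fintype.card_fin]
    ring
  have hadm : Admissible (N + 2) (X ^ N * (X - C c) ^ 2) x := by
    refine ⟨by omega, ?_, ⟨1, one_ne_zero, hP.symm⟩, ?_⟩
    · intro i j hij
      simp only [hx]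
      have hij' : (i : ℕ) ≤ j := hij
      split_ifs with h1 h2 h2
      · exact le_rfl
      · exact hc0
      · omega
      · exact le_rfl
    · intro k rows cols hr hcs
      have h := Q195.ZG.values_TP hc0 hN k k le_rfl cols rows hcs hr
      unfold Pool.Agent.TH809.TP.mnr at h
      rw [← Matrix.det_transpose] at h
      refine h.trans (le_of_eq ?_)
      congr 1
      ext p q
      simp only [Matrix.transpose_apply, Matrix.of_apply, Pool.Agent.TH809.TP.ent]
      split_ifs with h1
      · simp
      · rfl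
  have h1 := hd (N + 2) _ x hadm (N - 1) (by omega)
  have e1 : x ⟨N - 1 + 1, by omega⟩ = c := by
    simp only [hx]
    rw [if_neg (by omega)]
  have e2 : x ⟨N - 1, by omega⟩ = 0 := by
    simp only [hx]
    rw [if_pos (by omega)]
  rw [e1, e2, sub_zero, hc] at h1
  linarith

end Pool.Agent.Results.MP_c563b5_an.UnboundedGaps
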